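import Pool.Agent.K3h1.TF.Stm2

/-!
# TF2 brick ETA: the cyclotomic unit `p / (1 - ζ) ^ (p - 1)`
-/

set_option autoImplicit false

namespace Pool.Agent.K3h57.TF

open Polynomial

/-- `∏_{i<n} (1 + X + ... + X ^ i)` -/
noncomputable def pr (R : Type) [CommRing R] (n : ℕ) : Polynomial R :=
  ∏ i ∈ Finset.range n, ∑ j ∈ Finset.range (i + 1), X ^ j

theorem part1 {E : Type} [Field E] (p : ℕ) (hp : 1 ≤ p) (z : E) (hz : IsPrimitiveRoot z p) :
    aeval z (pr ℤ (p - 1)) * (1 - z) ^ (p - 1) = p := by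
  obtain ⟨n, rfl⟩ : ∃ n, p = n + 1 := ⟨p - 1, by omega⟩
  have h1 : (n + 1 - 1) = n := by omega
  rw [h1]
  unfold pr
  rw [map_prod]
  have h2 : (1 - z) ^ n = ∏ _i ∈ Finset.range n, (1 - z) := by
    rw [Finset.prod_const, Finset.card_range]
  rw [h2, ← Finset.prod_mul_distrib]
  have h3 : ∏ i ∈ Finset.range n, (aeval z (∑ j ∈ Finset.range (i + 1), (X : Polynomial ℤ) ^ j) *
      (1 - z)) = ∏ i ∈ Finset.range n, (1 - z ^ (i + 1)) := by
    refine Finset.prod_congr rfl fun i _ => ?_
    rw [map_sum]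
    simp only [map_pow, aeval_X]
    exact geom_sum_mul_neg z (i + 1)
  rw [h3, hz.prod_one_sub_pow_eq_order]
  push_cast
  rfl

theorem eval_t (R : Type) [CommRing R] (n : ℕ) :
    (∑ j ∈ Finset.range (n + 1), (X : Polynomial R) ^ j).eval 1 = n + 1 := by
  rw [eval_finsetSum]
  simp

theorem deriv_t (R : Type) [CommRing R] (n : ℕ) :
    2 * (derivative (∑ j ∈ Finset.range (n + 1), (X : Polynomial R) ^ j)).eval 1 =
      n * (n + 1) := by
  induction n with
  | zero => simp
  | succ n ih =>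
    rw [Finset.sum_range_succ, derivative_add, eval_add, mul_add, ih, derivative_X_pow]
    simp only [eval_mul, eval_pow, eval_X, one_pow, mul_one, Nat.cast_add, Nat.cast_one,
      map_add, map_natCast, map_one, eval_add, eval_natCast, eval_one]
    ring

theorem main (R : Type) [CommRing R] (n : ℕ) :
    4 * (derivative (pr R n)).eval 1 = (pr R n).eval 1 * (n * (n - 1)) := by
  induction n with
  | zero => simp [pr]
  | succ n ih =>
    have h1 : pr R (n + 1) = pr R n * ∑ j ∈ Finset.range (n + 1), X ^ j := by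
      unfold pr
      rw [Finset.prod_range_succ]
    rw [h1, derivative_mul, eval_add, eval_mul, eval_mul, eval_mul, eval_t]
    have h2 := deriv_t R n
    push_cast
    linear_combination ((n : R) + 1) * ih + 2 * (pr R n).eval 1 * h2

theorem map_pr (p n : ℕ) : (pr ℤ n).map (Int.castRingHom (ZMod p)) = pr (ZMod p) n := by
  unfold pr
  rw [Polynomial.map_prod]
  refine Finset.prod_congr rfl fun i _ => ?_
  rw [Polynomial.map_sum]
  simp

theorem part2 (p : ℕ) [Fact p.Prime] : (pr (ZMod p) (p - 1)).eval 1 ≠ 0 := by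
  unfold pr
  rw [eval_prod]
  refine Finset.prod_ne_zero_iff.2 fun i hi => ?_
  rw [eval_t]
  rw [Finset.mem_range] at hi
  intro h
  have h2 : ((i + 1 : ℕ) : ZMod p) = 0 := by
    push_cast
    exact h
  rw [ZMod.natCast_eq_zero_iff] at h2
  have := Nat.le_of_dvd (by omega) h2
  omega

theorem part3 (p : ℕ) [Fact p.Prime] (hp : 5 ≤ p) :
    2 * (derivative (pr (ZMod p) (p - 1))).eval 1 = (pr (ZMod p) (p - 1)).eval 1 := by
  have h1 := main (ZMod p) (p - 1)
  have h2 : ((p - 1 : ℕ) : ZMod p) = -1 := by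
    rw [Nat.cast_sub (by omega)]
    simp
  rw [h2] at h1
  have h3 : (2 : ZMod p) ≠ 0 := by
    intro h
    have h4 : ((2 : ℕ) : ZMod p) = 0 := by exact_mod_cast h
    rw [ZMod.natCast_eq_zero_iff] at h4
    have := Nat.le_of_dvd (by omega) h4
    omega
  apply mul_left_cancel₀ h3
  linear_combination h1

theorem t_ETA : Pool.Agent.K3h1.TF.S_ETA := by
  intro p _ hp E _ _ k
  have e : Pool.Agent.K3h1.TF.etaPoly p = pr ℤ (p - 1) := rfl
  rw [e, map_pr]
  exact ⟨part1 p (by omega) k.z k.prim, part2 p, part3 p hp⟩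

end Pool.Agent.K3h57.TF
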